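import Pool.Agent.W424.KI.Stm

/-!
# Stability of the explored sets (port of the files of helper239)
-/

set_option autoImplicit false

namespace Pool.Agent.W63.KI
open H974 H906.Cyl
open H12S (Dir hbE segD rimE H4 Crs Nr sqE)
open Pool.Agent.H160R2.ML (nm)
open Pool.Agent.H160R2.MU (Cel csq cpos EP inSq)
open Pool.Agent.W801.OU
open Pool.Agent.W808.KZ (vp fp AdmZ OutF LandZ nrp ZCr mrg)
open Pool.Agent.W424.KI

open Relation

namespace Aux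

/-- two relations which agree near an invariant set have the same classes there -/
theorem eqv_agree {α : Type} {L1 L2 : α → α → Prop} {S : α → Prop}
    (hS1 : ∀ x y, L1 x y → (S x ↔ S y))
    (h12 : ∀ x y, (S x ∨ S y) → (L1 x y ↔ L2 x y)) {y x : α} (hy : S y) :
    EqvGen L1 y x ↔ EqvGen L2 y x := by
  have hS2 : ∀ x y, L2 x y → (S x ↔ S y) := by
    intro x y h
    constructor
    · intro hx
      exact (hS1 _ _ ((h12 x y (Or.inl hx)).2 h)).1 hx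
    · intro hx
      exact (hS1 _ _ ((h12 x y (Or.inr hx)).2 h)).2 hx
  have key : ∀ (A B : α → α → Prop), (∀ x y, A x y → (S x ↔ S y)) →
      (∀ x y, (S x ∨ S y) → (A x y → B x y)) → ∀ {a b : α}, EqvGen A a b →
      (S a ↔ S b) ∧ (S a → EqvGen B a b) := by
    intro A B hA hAB a b h
    induction h with
    | rel a b h => exact ⟨hA a b h, fun ha => EqvGen.rel _ _ (hAB a b (Or.inl ha) h)⟩
    | refl a => exact ⟨Iff.rfl, fun _ => EqvGen.refl _⟩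
    | symm a b _ ih => exact ⟨ih.1.symm, fun hb => EqvGen.symm _ _ (ih.2 (ih.1.2 hb))⟩
    | trans a b c _ _ ih1 ih2 =>
      exact ⟨ih1.1.trans ih2.1, fun ha => EqvGen.trans _ _ _ (ih1.2 ha) (ih2.2 (ih1.1.1 ha))⟩
  constructor
  · intro h
    exact (key L1 L2 hS1 (fun x y hs => (h12 x y hs).1) h).2 hy
  · intro h
    exact (key L2 L1 hS2 (fun x y hs => (h12 x y hs).2) h).2 hy

theorem mem_mrg {X F G : Finset Edg} {e : Edg} :
    e ∈ mrg X F G ↔ (e ∈ F ∧ e ∈ X) ∨ (e ∈ G ∧ e ∉ X) := by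
  classical
  simp only [mrg, Finset.mem_union, Finset.mem_inter, Finset.mem_sdiff]

/-- links depend on the configuration only through the squares which touch -/
theorem LZ_congr {Z : Set ℤ} {B G G' : Set Edg} {x y : ℤ × ℤ}
    (h : ∀ e ∈ B, (∃ c : ℤ, (c = 0 ∨ c = 1) ∧ Cor Z c e x ∧ Cor Z c e y) → (e ∈ G ↔ e ∈ G')) :
    LZ Z B G x y ↔ LZ Z B G' x y := by
  constructor
  · rintro ⟨e, he, hz, h1 | h1⟩
    · have := h e he ⟨0, Or.inl rfl, ⟨hz, y, Or.inl h1.2⟩, ⟨hz, x, Or.inr h1.2⟩⟩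
      exact ⟨e, he, hz, Or.inl ⟨this.1 h1.1, h1.2⟩⟩
    · have := h e he ⟨1, Or.inr rfl, ⟨hz, y, Or.inl h1.2⟩, ⟨hz, x, Or.inr h1.2⟩⟩
      exact ⟨e, he, hz, Or.inr ⟨fun h2 => h1.1 (this.2 h2), h1.2⟩⟩
  · rintro ⟨e, he, hz, h1 | h1⟩
    · have := h e he ⟨0, Or.inl rfl, ⟨hz, y, Or.inl h1.2⟩, ⟨hz, x, Or.inr h1.2⟩⟩
      exact ⟨e, he, hz, Or.inl ⟨this.2 h1.1, h1.2⟩⟩
    · have := h e he ⟨1, Or.inr rfl, ⟨hz, y, Or.inl h1.2⟩, ⟨hz, x, Or.inr h1.2⟩⟩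
      exact ⟨e, he, hz, Or.inr ⟨fun h2 => h1.1 (this.1 h2), h1.2⟩⟩

theorem mem_FA {N L r : ℕ} {Ci Co : Cel} {R : ℕ} {F : Finset Edg} {e : Edg} :
    e ∈ FA N L r Ci Co R F ↔ e ∈ boxE R ∧
      ((e ∈ EB N L r ∧ e ∈ F) ∨ (e ∉ EB N L r ∧ e ∈ ET N L r Ci Co)) := by
  classical
  simp only [FA, Finset.mem_filter]

theorem mem_FB {N L r : ℕ} {Ci Co : Cel} {R : ℕ} {F : Finset Edg} {e : Edg} :
    e ∈ FB N L r Ci Co R F ↔ e ∈ boxE R ∧
      ((e ∈ EB N L r ∨ e ∈ ET N L r Ci Co) ∧ e ∈ F) := by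
  classical
  simp only [FB, Finset.mem_filter]

theorem mem_ExA1 {N L r : ℕ} {Ci Co : Cel} {R : ℕ} {F : Finset Edg} {e : Edg} :
    e ∈ ExA1 N L r Ci Co R F ↔ e ∈ boxE R ∧ e ∈ EB N L r ∧
      ∃ x, KA1 N L r Ci Co R F x ∧ (Cor {0} 0 e x ∨ Cor {0} 1 e x) := by
  classical
  simp only [ExA1, Finset.mem_filter]

theorem mem_ExB1 {c N L r ρ : ℕ} {Ci Co : Cel} {R : ℕ} {F : Finset Edg} {e : Edg} :
    e ∈ ExB1 c N L r ρ Ci Co R F ↔ e ∈ boxE R ∧ (e ∈ EB N L r ∨ e ∈ ET N L r Ci Co) ∧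
    ((∃ x, KB1 c N L r Ci Co R F x ∧ (Cor {0} 0 e x ∨ Cor {0} 1 e x)) ∨
      (e ∈ Yb N L r ρ Ci Co ∧ (KL N L r ρ Ci Co F (src e) ∨ KL N L r ρ Ci Co F (tgt e)))) := by
  classical
  simp only [ExB1, Finset.mem_filter]

theorem cor01 {Z : Set ℤ} {e : Edg} {x : ℤ × ℤ} {c : ℤ} (hc : c = 0 ∨ c = 1) (h : Cor Z c e x) :
    Cor Z 0 e x ∨ Cor Z 1 e x := by
  rcases hc with rfl | rfl
  · exact Or.inl h
  · exact Or.inr h

theorem FA1_iff {N L r : ℕ} {Ci Co : Cel} {R : ℕ} (F G : Finset Edg) {e : Edg} {x : ℤ × ℤ}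
    (hx : KA1 N L r Ci Co R F x) (hc : Cor {0} 0 e x ∨ Cor {0} 1 e x) :
    e ∈ FA N L r Ci Co R F ↔ e ∈ FA N L r Ci Co R (mrg (ExA1 N L r Ci Co R F) F G) := by
  rw [mem_FA, mem_FA, mem_mrg]
  by_cases h1 : e ∈ boxE R
  · by_cases h2 : e ∈ EB N L r
    · have : e ∈ ExA1 N L r Ci Co R F := mem_ExA1.2 ⟨h1, h2, x, hx, hc⟩
      tauto
    · tauto
  · tauto

theorem KA1_congr {N L r : ℕ} {Ci Co : Cel} {R : ℕ} (F G : Finset Edg) {y x : ℤ × ℤ}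
    (hy : KA1 N L r Ci Co R F y) :
    RZ {0} (bxz R) (↑(FA N L r Ci Co R F) : Set Edg) y x ↔
      RZ {0} (bxz R) (↑(FA N L r Ci Co R (mrg (ExA1 N L r Ci Co R F) F G)) : Set Edg) y x := by
  refine eqv_agree (S := KA1 N L r Ci Co R F) ?_ ?_ hy
  · intro a b hab
    constructor
    · rintro ⟨z, h1, h2⟩
      exact ⟨z, h1, EqvGen.trans _ _ _ h2 (EqvGen.rel _ _ hab)⟩
    · rintro ⟨z, h1, h2⟩
      exact ⟨z, h1, EqvGen.trans _ _ _ h2 (EqvGen.symm _ _ (EqvGen.rel _ _ hab))⟩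
  · intro a b hab
    refine LZ_congr fun e _ h => ?_
    obtain ⟨c, hc, ha, hb⟩ := h
    rcases hab with h | h
    · exact FA1_iff F G h (cor01 hc ha)
    · exact FA1_iff F G h (cor01 hc hb)

theorem KA1_eq {N L r : ℕ} {Ci Co : Cel} {R : ℕ} (F G : Finset Edg) :
    KA1 N L r Ci Co R (mrg (ExA1 N L r Ci Co R F) F G) = KA1 N L r Ci Co R F := by
  funext x
  refine propext ⟨?_, ?_⟩
  · rintro ⟨y, h1, h2⟩
    exact ⟨y, h1, (KA1_congr F G ⟨y, h1, EqvGen.refl _⟩).2 h2⟩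
  · rintro ⟨y, h1, h2⟩
    exact ⟨y, h1, (KA1_congr F G ⟨y, h1, EqvGen.refl _⟩).1 h2⟩

/-! ## step B -/

theorem FB1_iff {c N L r ρ : ℕ} {Ci Co : Cel} {R : ℕ} (F G : Finset Edg) {e : Edg} {x : ℤ × ℤ}
    (hx : KB1 c N L r Ci Co R F x) (hc : Cor {0} 0 e x ∨ Cor {0} 1 e x) :
    e ∈ FB N L r Ci Co R F ↔ e ∈ FB N L r Ci Co R (mrg (ExB1 c N L r ρ Ci Co R F) F G) := by
  rw [mem_FB, mem_FB, mem_mrg]
  by_cases h1 : e ∈ boxE R
  · by_cases h2 : e ∈ EB N L r ∨ e ∈ ET N L r Ci Co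
    · have : e ∈ ExB1 c N L r ρ Ci Co R F := mem_ExB1.2 ⟨h1, h2, Or.inl ⟨x, hx, hc⟩⟩
      tauto
    · tauto
  · tauto

theorem KB1_congr {c N L r : ℕ} (ρ : ℕ) {Ci Co : Cel} {R : ℕ} (F G : Finset Edg) {y x : ℤ × ℤ}
    (hy : KB1 c N L r Ci Co R F y) :
    RZ {0} (bxz R) (↑(FB N L r Ci Co R F) : Set Edg) y x ↔
      RZ {0} (bxz R) (↑(FB N L r Ci Co R (mrg (ExB1 c N L r ρ Ci Co R F) F G)) : Set Edg) y x := by
  refine eqv_agree (S := KB1 c N L r Ci Co R F) ?_ ?_ hy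
  · intro a b hab
    constructor
    · intro h2
      exact EqvGen.trans _ _ _ h2 (EqvGen.rel _ _ hab)
    · intro h2
      exact EqvGen.trans _ _ _ h2 (EqvGen.symm _ _ (EqvGen.rel _ _ hab))
  · intro a b hab
    refine LZ_congr fun e _ h => ?_
    obtain ⟨c, hc, ha, hb⟩ := h
    rcases hab with h | h
    · exact FB1_iff F G h (cor01 hc ha)
    · exact FB1_iff F G h (cor01 hc hb)

theorem KB1_eq {c N L r : ℕ} (ρ : ℕ) {Ci Co : Cel} {R : ℕ} (F G : Finset Edg) :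
    KB1 c N L r Ci Co R (mrg (ExB1 c N L r ρ Ci Co R F) F G) = KB1 c N L r Ci Co R F := by
  funext x
  refine propext ⟨?_, ?_⟩
  · intro h2
    exact (KB1_congr ρ F G (EqvGen.refl _)).2 h2
  · intro h2
    exact (KB1_congr ρ F G (EqvGen.refl _)).1 h2

theorem KL_iff (c : ℕ) {N L r ρ : ℕ} {Ci Co : Cel} {R : ℕ} {F G : Finset Edg} (hF : F ⊆ boxE R)
    (hG : G ⊆ boxE R) {e : Edg} (hY : e ∈ Yb N L r ρ Ci Co)
    (hK : KL N L r ρ Ci Co F (src e) ∨ KL N L r ρ Ci Co F (tgt e)) :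
    e ∈ F ↔ e ∈ mrg (ExB1 c N L r ρ Ci Co R F) F G := by
  rw [mem_mrg]
  by_cases h1 : e ∈ boxE R
  · have h5 : e ∈ ExB1 c N L r ρ Ci Co R F := mem_ExB1.2 ⟨h1, hY.1, Or.inr ⟨hY, hK⟩⟩
    tauto
  · have h2 : e ∉ F := fun h => h1 (hF h)
    have h4 : e ∉ G := fun h => h1 (hG h)
    tauto

theorem KL_eq (c : ℕ) {N L r ρ : ℕ} {Ci Co : Cel} {R : ℕ} {F G : Finset Edg} (hF : F ⊆ boxE R)
    (hG : G ⊆ boxE R) (v : Vtx) :
    KL N L r ρ Ci Co (mrg (ExB1 c N L r ρ Ci Co R F) F G) v ↔ KL N L r ρ Ci Co F v := by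
  constructor
  · rintro ⟨w, e0, h1, h2, h4, h5⟩
    have key : ∀ v, Reach ((↑(mrg (ExB1 c N L r ρ Ci Co R F) F G) : Set Edg) ∩
        Yb N L r ρ Ci Co) w v → Reach ((↑F : Set Edg) ∩ Yb N L r ρ Ci Co) w v := by
      intro v h
      induction h with
      | refl => exact Relation.ReflTransGen.refl
      | @tail b d _ hs ih =>
        refine ih.tail ?_
        obtain ⟨e, ⟨he1, he2⟩, h⟩ := hs
        have hb : KL N L r ρ Ci Co F b := ⟨w, e0, h1, h2, h4, ih⟩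
        have hK : KL N L r ρ Ci Co F (src e) ∨ KL N L r ρ Ci Co F (tgt e) := by
          rcases h with ⟨ha, _⟩ | ⟨_, ha⟩
          · left; rw [ha]; exact hb
          · right; rw [ha]; exact hb
        exact ⟨e, ⟨(KL_iff c hF hG he2 hK).2 he1, he2⟩, h⟩
    exact ⟨w, e0, h1, h2, h4, key v h5⟩
  · rintro ⟨w, e0, h1, h2, h4, h5⟩
    have key : ∀ v, Reach ((↑F : Set Edg) ∩ Yb N L r ρ Ci Co) w v →
        Reach ((↑(mrg (ExB1 c N L r ρ Ci Co R F) F G) : Set Edg) ∩ Yb N L r ρ Ci Co) w v := by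
      intro v h
      induction h with
      | refl => exact Relation.ReflTransGen.refl
      | @tail b d hbr hs ih =>
        refine ih.tail ?_
        obtain ⟨e, ⟨he1, he2⟩, h⟩ := hs
        have hb : KL N L r ρ Ci Co F b := ⟨w, e0, h1, h2, h4, hbr⟩
        have hK : KL N L r ρ Ci Co F (src e) ∨ KL N L r ρ Ci Co F (tgt e) := by
          rcases h with ⟨ha, _⟩ | ⟨_, ha⟩
          · left; rw [ha]; exact hb
          · right; rw [ha]; exact hb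
        exact ⟨e, ⟨(KL_iff c hF hG he2 hK).1 he1, he2⟩, h⟩
    exact ⟨w, e0, h1, h2, h4, key v h5⟩

end Aux

open Aux

theorem t_EXA1 : S_EXA1 := by
  intro N L r Ci Co R hGeo F G hF hG
  refine ⟨?_, ?_, ?_⟩
  · ext e
    rw [mem_ExA1, mem_ExA1, KA1_eq F G]
  · intro x
    rw [KA1_eq F G]
  · intro x y hx
    exact (KA1_congr F G hx).symm

theorem t_EXB1 : S_EXB1 := by
  intro c N L r ρ Ci Co R hGeo hρ hρr F G hF hG
  have hKB := KB1_eq (c := c) (N := N) (L := L) (r := r) (Ci := Ci) (Co := Co) (R := R) ρ F G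
  have hKL := KL_eq c (N := N) (L := L) (r := r) (ρ := ρ) (Ci := Ci) (Co := Co) hF hG
  refine ⟨?_, hKL, ?_⟩
  · ext e
    rw [mem_ExB1, mem_ExB1, hKB, hKL, hKL]
  · intro x
    exact (KB1_congr ρ F G (EqvGen.refl _)).symm

end Pool.Agent.W63.KI
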